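import Pool.Agent.H61.PM.Alt

/-!
# Finite groups all of whose `P`-characters are monomial

The question whether such groups are soluble reduces to almost simple groups with soluble outer
part, and many simple groups, among them all alternating groups, are excluded as composition
factors.
-/

set_option autoImplicit false

namespace Pool.Agent.Results.MP_8e3030_al.AlmostSimpleReduction

open Pool.Agent.H61.PM

/-- `T` is a composition factor of the finite group `G` (for simple `T`): a subnormal subgroup of
`G` maps onto `T` -/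
def Factor (G T : Type) [Group G] [Group T] : Prop :=
  ∃ K : Subgroup G, K.IsSubnormal ∧ ∃ f : K →* T, Function.Surjective f

/-- the images of `Y` under the automorphisms of `T` are conjugate to `Y` -/
def AutClass {T : Type} [Group T] (Y : Subgroup T) : Prop :=
  ∀ φ : MulAut T, ∃ t : T, Y.map φ.toMonoidHom = Y.map (MulAut.conj t).toMonoidHom

theorem result (G : Type) [Group G] [Finite G] (hG : AllMonomial G) :
    (¬ Group.IsSolvable G →
      ∃ (A : Type) (_ : Group A) (_ : Finite A) (S : Subgroup A) (_ : S.Normal),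
        IsSimpleGroup S ∧ (∃ a b : S, a * b ≠ b * a) ∧
        Subgroup.centralizer (S : Set A) = ⊥ ∧ Group.IsSolvable (A ⧸ S) ∧
        ¬ Group.IsSolvable A ∧ AllMonomial A ∧
        ∃ (K : Subgroup G) (f : K →* A), Function.Surjective f) ∧
    (∀ (T : Type) [Group T] [IsSimpleGroup T], (∃ a b : T, a * b ≠ b * a) → Factor G T →
      (∀ Y : Subgroup T, Y ≠ ⊤ → AutClass Y →
        ∃ R : Subgroup T, R ≠ ⊤ ∧ 2 * R.index ≤ Y.index) ∧
      (∀ p : ℕ, p.Prime → p ∣ Nat.card T →
        2 * p ≤ Nat.card (Sylow p T) ∧
        ∃ R : Subgroup T, R ≠ ⊤ ∧ 2 * R.index ≤ Nat.card (Sylow p T))) ∧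
    (∀ m : ℕ, 5 ≤ m → ¬ Factor G (alternatingGroup (Fin m))) := by
  refine ⟨?_, ?_, ?_⟩
  · intro hns
    obtain ⟨A, _, _, S, hS, n, K, f, h1, h2, h3, h4, h5, h6⟩ := reduction G hG hns
    refine ⟨A, inferInstance, inferInstance, S, hS, h1, h2, h3, ?_, ?_, h6, K, f, h5⟩
    · refine ⟨⟨n, ?_⟩⟩
      rw [← map_derivedSeries_eq (QuotientGroup.mk'_surjective S), eq_bot_iff]
      rintro _ ⟨x, hx, rfl⟩
      rw [Subgroup.mem_bot]
      exact (QuotientGroup.eq_one_iff x).2 (h4 hx)
    · intro hsol
      have hs : Group.IsSolvable S := inferInstance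
      obtain ⟨a, b, hab⟩ := h2
      exact hab (IsSimpleGroup.comm_iff_isSolvable.2 hs a b)
  · intro T _ _ hT hfac
    obtain ⟨K, hK, f, hf⟩ := hfac
    have : Finite T := Finite.of_surjective f hf
    refine ⟨fun Y hY hcls => comp_crit hT hG hK f hf hY hcls, ?_⟩
    intro p hp hpd
    have : Fact p.Prime := ⟨hp⟩
    obtain ⟨R, hR, hR'⟩ := sylow_crit hT hG hK f hf hpd
    refine ⟨?_, R, hR, hR'⟩
    have h1 : p ≤ R.index := by
      have h2 : Nat.card T ∣ R.index.factorial := by
        classical
        have hc : R.normalCore = ⊥ := by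
          apply (inferInstance : R.normalCore.Normal).eq_bot_or_eq_top.resolve_right
          intro h
          apply hR
          rw [eq_top_iff, ← h]
          exact Subgroup.normalCore_le R
        have hinj : Function.Injective (MulAction.toPermHom T (T ⧸ R)) := by
          rw [← MonoidHom.ker_eq_bot_iff, ← Subgroup.normalCore_eq_ker]
          exact hc
        have h3 := Subgroup.card_dvd_of_injective _ hinj
        rwa [Nat.card_perm, ← Subgroup.index] at h3
      exact (hp.dvd_factorial).1 (hpd.trans h2)
    omega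
  · rintro m hm ⟨K, hK, f, hf⟩
    exact no_alt hG hm hK f hf

end Pool.Agent.Results.MP_8e3030_al.AlmostSimpleReduction
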